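import Mathlib
import Pool.Agent.N178.MU.Murre

/-!
# Homologically trivial cycles on motives of complex abelian varieties without cohomology of degree
`2 i + 1`
-/

namespace Pool.Agent.U755.VN

open Module Pool.Agent.Y90 Pool.Agent.R915 Pool.Agent.N178.BL Pool.Agent.N178.GB
open Pool.Agent.N178.MU
open Pool.Agent.W546.GHC (IsHodgeSubstructure LevelLE complexify typeForms)
open Pool.Agent.N178.HX (Cor GHC)

noncomputable section

variable {C : ChowTheory} {K : Projectors C} {X Y O : AV}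

/-- The action on the cohomology is the one of a correspondence which maps the homologically trivial
cycles of dimension `i` to zero. -/
def Good (O : AV) (i : ℤ) (q : C.Co X X) : Prop :=
  ∃ T : C.Co X X, C.IsDeg 0 T ∧ (∀ ω, C.pb T ω = C.pb q ω) ∧
    ∀ z : C.Co O X, C.IsDeg i z → (∀ ω, C.pb z ω = 0) → C.o T z = 0

variable {i : ℤ}

theorem Good.zero : Good O i (0 : C.Co X X) :=
  ⟨0, deg_zero (C.deg_one X), fun _ => rfl, fun z _ _ => zero_o z⟩

theorem Good.add {q q' : C.Co X X} (h : Good O i q) (h' : Good O i q') : Good O i (q + q') := by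
  obtain ⟨T, h1, h2, h3⟩ := h
  obtain ⟨T', h1', h2', h3'⟩ := h'
  refine ⟨T + T', deg_add h1 h1', fun ω => ?_, fun z hz h0 => ?_⟩
  · rw [C.add_pb, C.add_pb, h2, h2']
  · rw [C.add_o, h3 z hz h0, h3' z hz h0, add_zero]

theorem Good.congr {q q' : C.Co X X} (h : Good O i q) (h' : ∀ ω, C.pb q' ω = C.pb q ω) :
    Good O i q' := by
  obtain ⟨T, h1, h2, h3⟩ := h
  exact ⟨T, h1, fun ω => by rw [h2, h'], h3⟩

/-- **The homologically trivial cycles of dimension `i` on `M` are zero.** -/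
theorem pure (K : Projectors C) (hO : finrank ℚ O.H = 0) (hG : GHC C.alg X) {p : C.Co X X}
    (hp : C.IsMotive p) {i : ℕ}
    (hlow : ∀ s t : ℕ, s + t ≤ 2 * i → i + 2 ≤ s ∨ i + 2 ≤ t → HodgeZero p s t)
    (hhigh : ∀ s t : ℕ, 2 * i + 2 ≤ s + t → s ≤ i ∨ t ≤ i → HodgeZero p s t)
    (hodd : C.img p (2 * i + 1) = ⊥) {z : C.Co O X} (hz : C.IsDeg i z)
    (hpz : C.o p z = z) (h0 : ∀ ω, C.pb z ω = 0) : z = 0 := by
  classical
  have hpd := hp.1
  -- the parts
  have hed : ∀ m, C.IsDeg 0 (C.o p (K.pr X m)) := fun m => by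
    have h1 := C.deg_o _ _ (K.deg X m) hpd
    rwa [zero_add] at h1
  have hepb : ∀ m ω, C.pb (C.o p (K.pr X m)) ω = inc X m (C.pb p ω m) := fun m ω => by
    rw [C.pb_o]
    exact eq_inc (K.kunneth X m _).1 (K.kunneth X m _).2
  have himg : ∀ m, C.img (C.o p (K.pr X m)) m ≤ C.img p m := by
    intro m
    refine Submodule.span_le.2 ?_
    rintro _ ⟨ω, rfl⟩
    rw [hepb, inc_same]
    exact Submodule.subset_span ⟨ω, rfl⟩
  have hmono : ∀ (m : ℕ) (V W : Submodule ℚ (X.H [⋀^Fin m]→ₗ[ℚ] ℚ)), V ≤ W →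
      complexify X.per V ≤ complexify X.per W := by
    intro m V W h
    refine Submodule.span_mono ?_
    rintro ψ ⟨f, hf, hψ⟩
    exact ⟨f, h hf, hψ⟩
  have hH : ∀ m s t : ℕ, s + t = m → HodgeZero p s t →
      complexify X.per (C.img (C.o p (K.pr X m)) m) ⊓ typeForms X.T m s t = ⊥ := by
    intro m s t hst h
    subst hst
    rw [eq_bot_iff]
    exact le_trans (inf_le_inf_right _ (hmono _ _ _ (himg _))) h.le
  have hne : ∀ m l, l ≠ m → ∀ ω, C.pb (C.o p (K.pr X m)) ω l = 0 := fun m l hl ω => by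
    rw [hepb, inc_ne hl]
  have hpart : ∀ m, Good O (i : ℤ) (C.o p (K.pr X m)) := by
    intro m
    rcases lt_trichotomy m (2 * i + 1) with hm | hm | hm
    · -- small weights
      obtain ⟨n, k, hnk, h1, hL⟩ : ∃ n k : ℕ, m = n + 2 * k ∧ n + k ≤ i + 1 ∧
          ∀ s t : ℕ, s + t = m → (n : ℤ) < |(s : ℤ) - t| → i + 2 ≤ s ∨ i + 2 ≤ t := by
        by_cases h2 : m ≤ i + 1
        · refine ⟨m, 0, by omega, by omega, fun s t hst h3 => ?_⟩
          exfalso
          rw [lt_abs] at h3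
          omega
        · refine ⟨2 * i + 2 - m, m - i - 1, by omega, by omega, fun s t hst h3 => ?_⟩
          rw [lt_abs] at h3
          omega
      obtain ⟨T, hT, hT'⟩ := exists_Wt K hG (hed m) hnk (hne m) fun s t hst h3 =>
        hH m s t hst (hlow s t (by omega) (hL s t hst h3))
      exact ⟨T, Wt_deg K hT, hT', fun z hz h0 =>
        Wt_zero K hO hT hz (by omega) (by omega) fun _ => h0⟩
    · -- weight `2 i + 1`
      refine Good.zero.congr fun ω => ?_
      have h2 : C.pb p ω m ∈ C.img p m := Submodule.subset_span ⟨ω, rfl⟩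
      rw [hm, hodd, Submodule.mem_bot] at h2
      rw [hepb, hm, h2, map_zero, zero_pb]
    · -- large weights
      obtain ⟨n, hn⟩ : ∃ n : ℕ, m = n + 2 * (i + 1) := ⟨m - 2 * (i + 1), by omega⟩
      obtain ⟨T, hT, hT'⟩ := exists_Wt K hG (hed m) hn (hne m) fun s t hst h3 =>
        hH m s t hst (hhigh s t (by omega) (by
          rw [lt_abs] at h3
          omega))
      exact ⟨T, Wt_deg K hT, hT', fun z hz h0 => Wt_neg K hO hT hz (by omega)⟩
  -- the sum
  have hsum : ∀ s : Finset ℕ, Good O (i : ℤ) (∑ m ∈ s, C.o p (K.pr X m)) := by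
    intro s
    induction s using Finset.induction_on with
    | empty => rw [Finset.sum_empty]; exact Good.zero
    | insert m s hm ih => rw [Finset.sum_insert hm]; exact (hpart m).add ih
  have hspb : ∀ (s : Finset ℕ) (ω : HT X), C.pb (∑ m ∈ s, C.o p (K.pr X m)) ω =
      ∑ m ∈ s, inc X m (C.pb p ω m) := by
    intro s ω
    rw [pb_sum]
    exact Finset.sum_congr rfl fun m _ => hepb m ω
  obtain ⟨T, hT, hT', hT0⟩ := (hsum (Finset.range (finrank ℚ X.H + 1))).congr (q' := p) fun ω => by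
    rw [hspb, ← sum_inc]
  -- nilpotence
  obtain ⟨ν, hν⟩ : ∃ ν, ν = p - T := ⟨_, rfl⟩
  have hνd : C.IsDeg 0 ν := by
    rw [hν]
    exact C.deg_sub _ _ hpd hT
  obtain ⟨N, hN⟩ := C.nilpotent ν hνd fun ω => by rw [hν, pb_sub, hT', sub_self]
  have h1 : z = C.o ν z := by
    have h2 : z = C.o ν z + C.o T z := by
      rw [hν, ← C.add_o, sub_add_cancel, hpz]
    rwa [hT0 z hz h0, add_zero] at h2
  have key : ∀ k : ℕ, z = C.o ((fun g : C.Co X X => C.o ν g)^[k] (C.one X)) z := by
    intro k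
    induction k with
    | zero => rw [Function.iterate_zero, id_eq, C.one_o]
    | succ k ih =>
      rw [Function.iterate_succ_apply', ← C.assoc, ← ih]
      exact h1
  have h3 := key N
  rwa [hN, zero_o] at h3

end

end Pool.Agent.U755.VN
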